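import Pool.Agent.Run7.h430.OT.B
import Pool.Agent.N826.IT.F

set_option autoImplicit false

/-!
Iterates of the totient and a property which is rarely violated in the classes of small moduli. This is `densk` of the
starting files (`Pool/Agent/N826/IT/F.lean`) with `EBM` in place of `EB` (helper430).
-/

namespace Run7.h430.OT

open Finset Classical
open Pool.Agent.N733.TG
open Pool.Agent.N826.IT hiding count UkT densk

theorem densk {f : ℕ → ℕ} {c : ℤ} (hf : SM f c) (a : ℤ) (Good : ℕ → Prop) (M : ℕ) (hE : ∀ A, EBM M a Good A) (k : ℕ)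
    (ε : ℝ) (hε : 0 < ε) : ∃ N₀ : ℕ, ∀ N : ℕ, N₀ ≤ N →
      (((Icc 1 N).filter (fun m => ¬ (0 < (f (Nat.totient^[k] m) : ℤ) + a ∧
        Good ((f (Nat.totient^[k] m) : ℤ) + a).toNat))).card : ℝ) ≤ ε * N := by
  obtain ⟨P, hP⟩ := hf.prime
  obtain ⟨C, D, hCD⟩ := hf.growth
  obtain ⟨C1, hC10, hC1⟩ := few_large
  obtain ⟨Cd, Cs, hCd, hCs, hfs⟩ := few_smooth
  obtain ⟨E, hEE⟩ : ∃ E, E = (k + 1) * (D * M) + 2 * k + 4 := ⟨_, rfl⟩
  have hE1 : 1 ≤ E := by omega
  have hE0 : (0 : ℝ) < E := by exact_mod_cast hE1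
  have hlog2 : 0 < Real.log 2 := Real.log_pos (by norm_num)
  -- the thresholds
  obtain ⟨j0, hj0⟩ := exists_nat_gt (64 * E / ε)
  obtain ⟨J, hJ0, hJ⟩ := exists_J j0 (fun x y => 3 * (x + 1) ≤ y + 1 ∧
    (Cd * ((x : ℝ) + 1)) ^ k * (Cs * ((x : ℝ) + 1) ^ 2 * E / ((y : ℝ) + 1)) ≤ ε / (16 * (k + 1))) (by
    intro x
    obtain ⟨y1, hy1⟩ := exists_nat_gt ((Cd * ((x : ℝ) + 1)) ^ k * (Cs * ((x : ℝ) + 1) ^ 2 * E) /
      (ε / (16 * (k + 1))))
    refine ⟨max y1 (3 * (x + 1)), ?_, ?_⟩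
    · have := le_max_right y1 (3 * (x + 1))
      omega
    · have h1 : (y1 : ℝ) ≤ ((max y1 (3 * (x + 1)) : ℕ) : ℝ) := by exact_mod_cast le_max_left _ _
      have hd : (0 : ℝ) < ε / (16 * (k + 1)) := by positivity
      rw [mul_div_assoc', div_le_iff₀ (by positivity)]
      rw [div_lt_iff₀ hd] at hy1
      have h2 : (y1 : ℝ) * (ε / (16 * (k + 1))) ≤ ε / (16 * (k + 1)) * (((max y1 (3 * (x + 1)) : ℕ) : ℝ) + 1) := by
        nlinarith
      linarith)
  have hJmono : Monotone J := monotone_nat_of_le_succ (fun i => by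
    have := (hJ i).1
    omega)
  -- the number of nice chains
  obtain ⟨NU, hNU⟩ := count hf a Good M hE hCD ((List.range k).map (fun i => J (i + 1))) (J 0) 2
  obtain ⟨Nsq, hNsq⟩ := few_sq (J k) k (ε / 8) (by positivity)
  have hsm : ∀ i, ∃ N₀ : ℕ, ∀ N : ℕ, N₀ ≤ N → (((Icc 1 N).filter (fun m =>
      (∀ l < i, NoSq (zz N (J i)) N (Nat.totient^[l] m)) ∧
      ∃ p ∈ PR (zz N (J i)) N, p ∣ Nat.totient^[i] m ∧
        2 ^ (Nat.log 2 N / E) < (sp (zz N (J (i + 1))) (p - 1)) ^ (J i + 1))).card : ℝ) ≤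
      ((Cd * (J i + 1)) ^ i * (Cs * (J i + 1) ^ 2 * E / (J (i + 1) + 1)) + ε / (16 * (k + 1))) * N :=
    fun i => hfs E i (J i) (J (i + 1)) (ε / (16 * (k + 1))) hE1 (by positivity) (hJ i).1
  choose NS hNS using hsm
  obtain ⟨Z, hZ⟩ : ∃ Z, Z = P + a.natAbs + c.natAbs := ⟨_, rfl⟩
  obtain ⟨n1, hn1⟩ := ev_log Z (J k)
  obtain ⟨K0, hK0⟩ := exists_nat_gt (8 / ε + C ^ M * 2 ^ k + 2 ^ (2 * k + 2))
  obtain ⟨n2, hn2⟩ := ev_log (K0 * E) 0
  obtain ⟨n3, hn3⟩ := ev_log (j0 + 1) 0
  obtain ⟨x4, hx4⟩ := exists_nat_gt (64 * E * C1 / (ε * Real.log 2))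
  obtain ⟨n4, hn4⟩ := ev_log (x4 + E) 0
  obtain ⟨n5, hn5⟩ := Pool.Agent.TH935.LD.ev_L' (⌈16 / ε⌉₊ + 1)
  refine ⟨max (max NU Nsq) (max ((range k).sup NS) (max (max n1 n2) (max (max n3 n4) (max n5 3)))),
    fun N hN => ?_⟩
  have c1 : NU ≤ N := le_trans (le_trans (le_max_left _ _) (le_max_left _ _)) hN
  have c2 : Nsq ≤ N := le_trans (le_trans (le_max_right _ _) (le_max_left _ _)) hN
  have d1 := le_trans (le_max_right (max NU Nsq) _) hN
  have c3 : ∀ i ∈ range k, NS i ≤ N := fun i hi => le_trans (Finset.le_sup hi) (le_trans (le_max_left _ _) d1)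
  have d2 := le_trans (le_max_right ((range k).sup NS) _) d1
  have c4 : n1 ≤ N := le_trans (le_trans (le_max_left _ _) (le_max_left _ _)) d2
  have c5 : n2 ≤ N := le_trans (le_trans (le_max_right _ _) (le_max_left _ _)) d2
  have d3 := le_trans (le_max_right (max n1 n2) _) d2
  have c6 : n3 ≤ N := le_trans (le_trans (le_max_left _ _) (le_max_left _ _)) d3
  have c7 : n4 ≤ N := le_trans (le_trans (le_max_right _ _) (le_max_left _ _)) d3
  have d4 := le_trans (le_max_right (max n3 n4) _) d3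
  have c8 : n5 ≤ N := le_trans (le_max_left _ _) d4
  have c9 : 3 ≤ N := le_trans (le_max_right _ _) d4
  have hN0 : (0 : ℝ) < N := by exact_mod_cast (by omega : 0 < N)
  have hNn : N ≠ 0 := by omega
  obtain ⟨ℓ, hℓ⟩ : ∃ ℓ, ℓ = Nat.log 2 N := ⟨_, rfl⟩
  obtain ⟨K, hK⟩ : ∃ K, K = 2 ^ (Nat.log 2 N / E) := ⟨_, rfl⟩
  have hK1 : 1 ≤ K := by rw [hK]; exact Nat.one_le_two_pow
  have hKE : K ^ E ≤ N := by
    rw [hK, ← pow_mul]
    calc 2 ^ (Nat.log 2 N / E * E) ≤ 2 ^ (Nat.log 2 N) :=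
          Nat.pow_le_pow_right (by norm_num) (Nat.div_mul_le_self _ _)
      _ ≤ N := Nat.pow_log_le_self 2 hNn
  have hKN : K ≤ N := le_trans (Nat.le_self_pow (by omega) K) hKE
  have hKlt : K < 2 ^ (Nat.log 2 N + 1) := lt_of_le_of_lt hKN (Nat.lt_pow_succ_log_self (by norm_num) N)
  have hKbig : K0 ≤ K := by
    have h1 := hn2 N c5
    rw [zero_add, Nat.div_one] at h1
    have h2 : K0 ≤ Nat.log 2 N / E := by
      rw [Nat.le_div_iff_mul_le (by omega)]
      exact h1
    rw [hK]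
    exact h2.trans Nat.lt_two_pow_self.le
  have hKr : 8 / ε + C ^ M * 2 ^ k + 2 ^ (2 * k + 2) ≤ (K : ℝ) := by
    have : (K0 : ℝ) ≤ K := by exact_mod_cast hKbig
    linarith
  have h8e : (0 : ℝ) < 8 / ε := by positivity
  have hKC : C ^ M * 2 ^ k ≤ K := by
    have : ((C ^ M * 2 ^ k : ℕ) : ℝ) ≤ K := by
      push_cast
      have h1 : (0 : ℝ) ≤ 2 ^ (2 * k + 2) := by positivity
      linarith
    exact_mod_cast this
  have hK2 : 2 ^ (2 * k + 2) ≤ K := by
    have : ((2 ^ (2 * k + 2) : ℕ) : ℝ) ≤ K := by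
      push_cast
      have h1 : (0 : ℝ) ≤ (C : ℝ) ^ M * 2 ^ k := by positivity
      linarith
    exact_mod_cast this
  have hK8 : 8 / ε ≤ (K : ℝ) := by
    have h1 : (0 : ℝ) ≤ (C : ℝ) ^ M * 2 ^ k := by positivity
    have h2 : (0 : ℝ) ≤ 2 ^ (2 * k + 2) := by positivity
    linarith
  have hzk : Z ≤ zz N (J k) := by
    have h1 := hn1 N c4
    unfold zz
    calc Z ≤ Nat.log 2 N / (J k + 1) := h1
      _ ≤ Nat.log 2 N / (J k + 1) + 1 := Nat.le_succ _
      _ ≤ _ := Nat.lt_two_pow_self.le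
  -- the exceptional sets
  obtain ⟨S1, hS1⟩ : ∃ S, S = (Icc 1 N).filter (fun m => (K : ℝ) < (sp (zz N (J 0)) m : ℝ)) := ⟨_, rfl⟩
  obtain ⟨S2, hS2⟩ : ∃ S, S = (Icc 1 N).filter
    (fun m => ∃ j ≤ k, ¬ NoSq (zz N (J k)) N (Nat.totient^[j] m)) := ⟨_, rfl⟩
  obtain ⟨S3, hS3⟩ : ∃ S : ℕ → Finset ℕ, S = fun i => (Icc 1 N).filter (fun m =>
      (∀ l < i, NoSq (zz N (J i)) N (Nat.totient^[l] m)) ∧
      ∃ p ∈ PR (zz N (J i)) N, p ∣ Nat.totient^[i] m ∧
        2 ^ (Nat.log 2 N / E) < (sp (zz N (J (i + 1))) (p - 1)) ^ (J i + 1)) := ⟨_, rfl⟩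
  obtain ⟨S4, hS4⟩ : ∃ S, S = (Icc 1 K).biUnion (fun q => ((Icc 1 (N / q)).filter (fun r =>
    BN f a Good K ((List.range k).map (fun i => zz N (J (i + 1)))) (zz N (J 0)) q r)).image
      (fun u => q * u)) := ⟨_, rfl⟩
  have hcov : (Icc 1 N).filter (fun m => ¬ (0 < (f (Nat.totient^[k] m) : ℤ) + a ∧
        Good ((f (Nat.totient^[k] m) : ℤ) + a).toNat)) ⊆
      (((S1 ∪ S2) ∪ Icc 1 K) ∪ (range k).biUnion S3) ∪ S4 := by
    intro m hm
    rw [mem_filter, mem_Icc] at hm
    obtain ⟨⟨hm1, hmN⟩, hbad⟩ := hm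
    by_cases h1 : (K : ℝ) < (sp (zz N (J 0)) m : ℝ)
    · rw [mem_union, mem_union, mem_union, mem_union]
      left; left; left; left
      rw [hS1, mem_filter, mem_Icc]
      exact ⟨⟨hm1, hmN⟩, h1⟩
    by_cases h2 : ∃ j ≤ k, ¬ NoSq (zz N (J k)) N (Nat.totient^[j] m)
    · rw [mem_union, mem_union, mem_union, mem_union]
      left; left; left; right
      rw [hS2, mem_filter, mem_Icc]
      exact ⟨⟨hm1, hmN⟩, h2⟩
    push Not at h2
    have hnsq : ∀ i ≤ k, ∀ j ≤ k, NoSq (zz N (J i)) N (Nat.totient^[j] m) :=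
      fun i hi j hj => NoSq_mono (zz_anti N (hJmono hi)) (h2 j hj)
    have hmul := sp_mul_rp (zz N (J 0)) m (by omega)
    have hk1 := sp_pos (zz N (J 0)) m
    have hu1 := rp_pos (zz N (J 0)) m
    have hkK : sp (zz N (J 0)) m ≤ K := by exact_mod_cast not_lt.1 h1
    by_cases h3 : rp (zz N (J 0)) m = 1
    · rw [mem_union, mem_union, mem_union]
      left; left; right
      rw [h3, mul_one] at hmul
      rw [mem_Icc]
      omega
    by_cases h4 : ∃ i < k, m ∈ S3 i
    · obtain ⟨i, hi, h4⟩ := h4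
      rw [mem_union, mem_union]
      left; right
      rw [mem_biUnion]
      exact ⟨i, mem_range.2 hi, h4⟩
    push Not at h4
    rw [mem_union]
    right
    have hrough : Rough (zz N (J 0)) (rp (zz N (J 0)) m) := fun p hp hd => lt_of_dvd_rp hp hd
    have hsq : Squarefree (rp (zz N (J 0)) m) := by
      rw [Nat.squarefree_iff_prime_squarefree]
      intro p hp hd
      have hpr : p ∣ rp (zz N (J 0)) m := (dvd_mul_right p p).trans hd
      have hpN : p ≤ N := by
        refine (Nat.le_of_dvd hm1 ?_).trans hmN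
        rw [← hmul]
        exact hpr.trans (dvd_mul_left _ _)
      apply hnsq 0 (by omega) 0 (by omega) p (mem_PR.2 ⟨⟨hrough p hp hpr, hpN⟩, hp⟩)
      simp only [Function.iterate_zero, id]
      rw [pow_two]
      exact (hd.trans (dvd_mul_left _ _)).trans (dvd_of_eq hmul)
    have hB : ∀ i < k, ∀ p ∈ PR (zz N (J i)) N, p ∣ Nat.totient^[i] m →
        (sp (zz N (J (i + 1))) (p - 1)) ^ (J i + 1) ≤ K := by
      intro i hi p hp hd
      by_contra hcon
      push Not at hcon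
      apply h4 i hi
      rw [hS3]
      simp only
      rw [mem_filter, mem_Icc]
      exact ⟨⟨hm1, hmN⟩, fun l hl => hnsq i (by omega) l (by omega), p, hp, hd, by rw [← hK]; exact hcon⟩
    have hch := chain hf hP (a := a) (Good := Good) hK1 hKlt k J (by omega) (by omega) m (sp (zz N (J 0)) m)
      (rp (zz N (J 0)) m) hm1 hmN hmul.symm (coprime_sp_rp _ m) hsq hrough h3
      (fun j hj => hnsq j hj j hj) hB hbad
    rw [hS4, mem_biUnion]
    refine ⟨sp (zz N (J 0)) m, by rw [mem_Icc]; exact ⟨hk1, hkK⟩, ?_⟩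
    rw [mem_image]
    refine ⟨rp (zz N (J 0)) m, ?_, hmul⟩
    rw [mem_filter, mem_Icc]
    refine ⟨⟨hu1, ?_⟩, hch⟩
    rw [Nat.le_div_iff_mul_le hk1, mul_comm, hmul]
    exact hmN
  -- the sizes
  have hℓE : (ℓ : ℝ) / (2 * E) ≤ ((ℓ / E : ℕ) : ℝ) := by
    rw [div_le_iff₀ (by positivity)]
    have h1 : ℓ < E * (ℓ / E + 1) := Nat.lt_mul_div_succ ℓ (by omega)
    have h2 : 1 ≤ ℓ / E := by
      rw [Nat.le_div_iff_mul_le (by omega)]
      have := hn4 N c7
      rw [zero_add, Nat.div_one] at this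
      omega
    have h3 : ℓ ≤ (ℓ / E) * (2 * E) := by nlinarith
    exact_mod_cast h3
  have hℓpos : (0 : ℝ) < ℓ := by
    have := hn4 N c7
    rw [zero_add, Nat.div_one] at this
    exact_mod_cast (by omega : 0 < ℓ)
  have hlK : (ℓ : ℝ) * Real.log 2 / (2 * E) ≤ Real.log K := by
    have : Real.log K = ((ℓ / E : ℕ) : ℝ) * Real.log 2 := by
      rw [hK, ← hℓ]; push_cast; rw [Real.log_pow]
    rw [this]
    calc (ℓ : ℝ) * Real.log 2 / (2 * E) = ℓ / (2 * E) * Real.log 2 := by ring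
      _ ≤ _ := mul_le_mul_of_nonneg_right hℓE hlog2.le
  have hlK0 : 0 < Real.log K := lt_of_lt_of_le (by positivity) hlK
  have hK1' : (1 : ℝ) < K := by
    rw [← Real.log_pos_iff (Nat.cast_nonneg _)]
    exact hlK0
  have q1 : (S1.card : ℝ) ≤ ε / 4 * N := by
    have h1 := hC1 N (zz N (J 0)) K (by unfold zz; exact Nat.one_le_two_pow) hK1'
    rw [hS1]
    refine h1.trans ?_
    have hlz : Real.log (zz N (J 0) : ℝ) ≤ 2 * ℓ / (j0 + 1) * Real.log 2 := by
      have h2 : Real.log (zz N (J 0) : ℝ) = ((ℓ / (j0 + 1) + 1 : ℕ) : ℝ) * Real.log 2 := by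
        unfold zz
        rw [hJ0, ← hℓ]
        rw [Nat.cast_pow, Real.log_pow]
        norm_num
      rw [h2]
      apply mul_le_mul_of_nonneg_right _ hlog2.le
      rw [le_div_iff₀ (by positivity)]
      have h3 : (ℓ / (j0 + 1) + 1) * (j0 + 1) ≤ 2 * ℓ := by
        have h4 := Nat.div_mul_le_self ℓ (j0 + 1)
        have h5 : j0 + 1 ≤ ℓ := by
          have := hn3 N c6
          rw [zero_add, Nat.div_one] at this
          omega
        nlinarith
      exact_mod_cast h3
    have hx : 64 * E * C1 / (ε * Real.log 2) ≤ ℓ := by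
      have h2 := hn4 N c7
      rw [zero_add, Nat.div_one] at h2
      have h3 : (x4 : ℝ) ≤ ℓ := by exact_mod_cast (by omega : x4 ≤ ℓ)
      linarith
    have hC1' : C1 ≤ ε * ℓ * Real.log 2 / (64 * E) := by
      rw [le_div_iff₀ (by positivity)]
      rw [div_le_iff₀ (by positivity)] at hx
      linarith
    have hj : (2 : ℝ) * ℓ / (j0 + 1) * Real.log 2 ≤ 2 * ε * ℓ * Real.log 2 / (64 * E) := by
      rw [div_mul_eq_mul_div, div_le_div_iff₀ (by positivity) (by positivity)]
      have h3 : 64 * (E : ℝ) ≤ ε * (j0 + 1) := by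
        rw [div_lt_iff₀ hε] at hj0
        nlinarith
      have h4 : 0 ≤ 2 * (ℓ : ℝ) * Real.log 2 := by positivity
      calc 2 * (ℓ : ℝ) * Real.log 2 * (64 * E) ≤ 2 * (ℓ : ℝ) * Real.log 2 * (ε * (j0 + 1)) :=
            mul_le_mul_of_nonneg_left h3 h4
        _ = _ := by ring
    have hsum : Real.log (zz N (J 0) : ℝ) + C1 ≤ ε / 8 * (ℓ * Real.log 2 / (2 * E)) := by
      have e1 : ε / 8 * (ℓ * Real.log 2 / (2 * E)) = 4 * (ε * ℓ * Real.log 2 / (64 * E)) := by
        field_simp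
        ring
      have e2 : 2 * ε * ℓ * Real.log 2 / (64 * E) = 2 * (ε * ℓ * Real.log 2 / (64 * E)) := by ring
      rw [e1]
      rw [e2] at hj
      have : 0 ≤ ε * ℓ * Real.log 2 / (64 * E) := by positivity
      linarith
    rw [div_le_iff₀ hlK0]
    have h9 : Real.log (zz N (J 0) : ℝ) + C1 ≤ ε / 8 * Real.log K :=
      hsum.trans (mul_le_mul_of_nonneg_left hlK (by positivity))
    nlinarith
  have q2 : (S2.card : ℝ) ≤ ε / 8 * N := by
    rw [hS2]
    exact hNsq N c2
  have q3 : ((Icc 1 K).card : ℝ) ≤ ε / 8 * N := by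
    rw [Nat.card_Icc, Nat.add_sub_cancel]
    have h1 : K * K ≤ N := by
      calc K * K = K ^ 2 := by ring
        _ ≤ K ^ E := Nat.pow_le_pow_right hK1 (by omega)
        _ ≤ N := hKE
    have h3 : (K : ℝ) * K ≤ N := by exact_mod_cast h1
    have h4 : 8 / ε * K ≤ N := by
      refine le_trans ?_ h3
      exact mul_le_mul_of_nonneg_right hK8 (Nat.cast_nonneg _)
    have h5 : (K : ℝ) = ε / 8 * (8 / ε * K) := by field_simp
    rw [h5]
    exact mul_le_mul_of_nonneg_left h4 (by positivity)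
  have q4 : (((range k).biUnion S3).card : ℝ) ≤ ε / 8 * N := by
    have h1 : (((range k).biUnion S3).card : ℝ) ≤ ∑ i ∈ range k, ((S3 i).card : ℝ) := by
      exact_mod_cast card_biUnion_le
    refine h1.trans ?_
    have h2 : ∀ i ∈ range k, ((S3 i).card : ℝ) ≤ ε / (8 * (k + 1)) * N := by
      intro i hi
      have h3 := hNS i N (c3 i hi)
      rw [hS3]
      refine h3.trans ?_
      apply mul_le_mul_of_nonneg_right _ hN0.le
      have h4 : (Cd * ((J i : ℝ) + 1)) ^ i * (Cs * (J i + 1) ^ 2 * E / (J (i + 1) + 1)) ≤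
          ε / (16 * (k + 1)) := by
        refine le_trans ?_ (hJ i).2
        apply mul_le_mul_of_nonneg_right _ (by positivity)
        apply pow_le_pow_right₀ _ (mem_range.1 hi).le
        have : (0 : ℝ) ≤ (J i : ℝ) := Nat.cast_nonneg _
        nlinarith
      have h5 : ε / (8 * ((k : ℝ) + 1)) = ε / (16 * (k + 1)) + ε / (16 * (k + 1)) := by
        field_simp
        ring
      rw [h5]
      linarith
    refine (sum_le_sum h2).trans ?_
    rw [sum_const, card_range, nsmul_eq_mul]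
    have h3 : (k : ℝ) * (ε / (8 * (k + 1)) * N) = ε / 8 * N * (k / (k + 1)) := by
      field_simp
    rw [h3]
    have h4 : (k : ℝ) / (k + 1) ≤ 1 := by
      rw [div_le_one (by positivity)]
      linarith
    exact mul_le_of_le_one_right (by positivity) h4
  have q5 : (S4.card : ℝ) ≤ ε / 4 * N := by
    obtain ⟨L, hL⟩ : ∃ L, L = Real.log N := ⟨_, rfl⟩
    have hLge : 16 / ε + 1 ≤ L := by
      have h1 := hn5 N c8
      have h2 := Nat.le_ceil (16 / ε)
      rw [hL]
      push_cast at h1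
      linarith
    have hp2 : (0 : ℝ) ≤ 16 / ε := by positivity
    have hL1 : 1 ≤ L := by linarith
    have h1 : (S4.card : ℝ) ≤ ∑ q ∈ Icc 1 K, (((Icc 1 (N / q)).filter (fun r =>
        BN f a Good K ((List.range k).map (fun i => zz N (J (i + 1)))) (zz N (J 0)) q r)).card : ℝ) := by
      have h0 : S4.card ≤ ∑ q ∈ Icc 1 K, ((Icc 1 (N / q)).filter (fun r =>
        BN f a Good K ((List.range k).map (fun i => zz N (J (i + 1)))) (zz N (J 0)) q r)).card := by
        rw [hS4]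
        exact card_biUnion_le.trans (sum_le_sum (fun k _ => card_image_le))
      exact_mod_cast h0
    have h2 : ∀ q ∈ Icc 1 K, (((Icc 1 (N / q)).filter (fun r =>
        BN f a Good K ((List.range k).map (fun i => zz N (J (i + 1)))) (zz N (J 0)) q r)).card : ℝ) ≤
        N / L ^ 2 * (1 / q) := by
      intro q hq
      rw [mem_Icc] at hq
      have e5 := hNU N c1 K hK1 hKN ((List.range k).map (fun i => zz N (J (i + 1)))) (zz N (J 0)) (by
          rw [List.forall₂_map_left_iff, List.forall₂_map_right_iff, List.forall₂_same]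
          intro i _
          exact zz_big N (J (i + 1))) (zz_big N (J 0)) q (N / q) hq.1 (Nat.div_le_self _ _) (by
          rw [List.length_map, List.length_range, Nat.le_div_iff_mul_le (by omega)]
          calc (C * (q * K ^ k) ^ D) ^ M * (2 * K) ^ k * q ≤ (C * (K * K ^ k) ^ D) ^ M * (2 * K) ^ k * K := by
                apply Nat.mul_le_mul _ hq.2
                apply Nat.mul_le_mul_right
                apply Nat.pow_le_pow_left
                apply Nat.mul_le_mul_left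
                exact Nat.pow_le_pow_left (Nat.mul_le_mul_right _ hq.2) D
            _ = (C ^ M * 2 ^ k) * K ^ ((k + 1) * (D * M) + k + 1) := by
                rw [mul_pow 2 K k, ← pow_succ', ← pow_mul, mul_pow C, ← pow_mul, mul_assoc (k + 1) D M]
                ring
            _ ≤ K * K ^ ((k + 1) * (D * M) + k + 1) := Nat.mul_le_mul_right _ hKC
            _ = K ^ ((k + 1) * (D * M) + k + 2) := by ring
            _ ≤ K ^ E := Nat.pow_le_pow_right hK1 (by omega)
            _ ≤ N := hKE) (by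
          rw [List.length_map, List.length_range]
          have g1 : N < q * (N / q + 1) := Nat.lt_mul_div_succ N (by omega)
          have g2 : 1 ≤ N / q := by
            rw [Nat.le_div_iff_mul_le (by omega)]
            omega
          have g3 : N ≤ 2 * K * (N / q) := by nlinarith
          have g4 : (2 * K) ^ (2 * k + 2) ≤ N := by
            calc (2 * K) ^ (2 * k + 2) = 2 ^ (2 * k + 2) * K ^ (2 * k + 2) := by rw [mul_pow]
              _ ≤ K * K ^ (2 * k + 2) := Nat.mul_le_mul_right _ hK2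
              _ = K ^ (2 * k + 3) := by ring
              _ ≤ K ^ E := Nat.pow_le_pow_right hK1 (by omega)
              _ ≤ N := hKE
          have g5 : (N * (2 * K) ^ (2 * k)) * (2 * K) ^ 2 ≤ (N / q) ^ 2 * (2 * K) ^ 2 := by
            calc (N * (2 * K) ^ (2 * k)) * (2 * K) ^ 2 = N * (2 * K) ^ (2 * k + 2) := by ring
              _ ≤ N * N := Nat.mul_le_mul_left _ g4
              _ ≤ (2 * K * (N / q)) * (2 * K * (N / q)) := Nat.mul_le_mul g3 g3
              _ = _ := by ring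
          exact Nat.le_of_mul_le_mul_right g5 (by positivity))
      refine e5.trans ?_
      rw [← hL]
      have e6 : ((N / q : ℕ) : ℝ) ≤ N / q := Nat.cast_div_le
      calc ((N / q : ℕ) : ℝ) / L ^ 2 ≤ (N / q) / L ^ 2 := div_le_div_of_nonneg_right e6 (by positivity)
        _ = N / L ^ 2 * (1 / q) := by ring
    refine h1.trans ((sum_le_sum h2).trans ?_)
    rw [← mul_sum]
    have h3 := Pool.Agent.TH935.DSB.harm K
    have h4 : 1 + Real.log K ≤ 2 * L := by
      have : Real.log K ≤ L := by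
        rw [hL]
        exact Real.log_le_log (by exact_mod_cast hK1) (by exact_mod_cast hKN)
      linarith
    calc N / L ^ 2 * ∑ k ∈ Icc 1 K, (1 / (k : ℝ)) ≤ N / L ^ 2 * (2 * L) :=
          mul_le_mul_of_nonneg_left (h3.trans h4) (by positivity)
      _ = 2 * N / L := by field_simp
      _ ≤ ε / 4 * N := by
          rw [div_le_iff₀ (by linarith)]
          have h6 : 16 / ε ≤ L := by linarith
          rw [div_le_iff₀ hε] at h6
          nlinarith
  calc (((Icc 1 N).filter (fun m => ¬ (0 < (f (Nat.totient^[k] m) : ℤ) + a ∧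
        Good ((f (Nat.totient^[k] m) : ℤ) + a).toNat))).card : ℝ)
      ≤ (((((S1 ∪ S2) ∪ Icc 1 K) ∪ (range k).biUnion S3) ∪ S4).card : ℝ) := by
        exact_mod_cast card_le_card hcov
    _ ≤ (S1.card : ℝ) + S2.card + (Icc 1 K).card + ((range k).biUnion S3).card + S4.card := by
        have a0 := card_union_le (((S1 ∪ S2) ∪ Icc 1 K) ∪ (range k).biUnion S3) S4
        have a1 := card_union_le ((S1 ∪ S2) ∪ Icc 1 K) ((range k).biUnion S3)
        have a2 := card_union_le (S1 ∪ S2) (Icc 1 K)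
        have a3 := card_union_le S1 S2
        have : ((((S1 ∪ S2) ∪ Icc 1 K) ∪ (range k).biUnion S3) ∪ S4).card ≤
            S1.card + S2.card + (Icc 1 K).card + ((range k).biUnion S3).card + S4.card := by omega
        exact_mod_cast this
    _ ≤ ε * N := by
        have : (0 : ℝ) ≤ ε * N := by positivity
        linarith

end Run7.h430.OT
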