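import Pool.Agent.Run7.h430.OT.C
import Pool.Agent.N826.IT.G

set_option autoImplicit false

/-!
# Thin exceptional sets and the orbits of Euler's function

A property of the positive integers which is rarely violated in the classes of the moduli `q ≤ X ^ (1 / M)`, for some `M`
(in particular every property whose exceptional set up to `X` has at most `X ^ (1 - η)` members), holds at all the integers
`α f(φ_k m) + h`, `k, α, |h| ≤ κ(m)`, for almost all `m` (helper430, after `Pool/Agent/N826/IT/G.lean` of the starting files,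
where the moduli go up to `X ^ (7 / 12)`).
-/

namespace Run7.h430.OT

open Finset Classical Filter Topology
open Pool.Agent.N826.IT.Orb

/-- few members of the classes `h mod q` do not have the property `Q`, for all `q` with `q ^ M ≤ X` -/
def CBM (M : ℕ) (h : ℤ) (Q : ℕ → Prop) (A : ℕ) : Prop :=
  ∃ X₀ : ℕ, ∀ X : ℕ, X₀ ≤ X → ∀ q : ℕ, 1 ≤ q → (q : ℝ) ^ M ≤ (X : ℝ) → ∀ S : Finset ℕ,
    (∀ n ∈ S, 0 < n ∧ n ≤ X ∧ (n : ℤ) ≡ h [ZMOD q] ∧ ¬ Q n) →
    (S.card : ℝ) ≤ X / (q * Real.log X ^ A)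

lemma ev_allM (H A Z : ℕ) : ∃ X₀ : ℝ, 3 ≤ X₀ ∧ ∀ X : ℝ, X₀ ≤ X → (Z : ℝ) ≤ X ∧
    2 * (H : ℝ) * Real.log X ^ A ≤ X ^ (1 / 2 : ℝ) ∧ 4 * ((H : ℝ) + 2) ≤ Real.log X := by
  have h2 := (isLittleO_log_rpow_rpow_atTop (s := (1 / 2 : ℝ)) (A : ℝ) (by norm_num)).bound
    (c := 1 / (2 * H + 1)) (by positivity)
  have h3 := Real.tendsto_log_atTop.eventually_ge_atTop (4 * ((H : ℝ) + 2))
  obtain ⟨X₀, hX₀⟩ := Filter.eventually_atTop.1 (h2.and h3)
  refine ⟨max (max X₀ 3) Z, le_trans (le_max_right _ _) (le_max_left _ _), fun X hX => ?_⟩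
  obtain ⟨a2, a3⟩ := hX₀ X (((le_max_left _ _).trans (le_max_left _ _)).trans hX)
  have hX3 : (3 : ℝ) ≤ X := ((le_max_right _ _).trans (le_max_left _ _)).trans hX
  have hX0 : 0 < X := by linarith
  refine ⟨(le_max_right _ _).trans hX, ?_, a3⟩
  have hl : 0 ≤ Real.log X := Real.log_nonneg (by linarith)
  rw [Real.norm_of_nonneg (by positivity), Real.norm_of_nonneg (by positivity), Real.rpow_natCast] at a2
  have h4 : 0 ≤ Real.log X ^ A := by positivity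
  calc 2 * (H : ℝ) * Real.log X ^ A ≤ (2 * H + 1) * Real.log X ^ A := by nlinarith
    _ ≤ (2 * H + 1) * (1 / (2 * H + 1) * X ^ (1 / 2 : ℝ)) := by gcongr
    _ = X ^ (1 / 2 : ℝ) := by field_simp

theorem ebm_of (M : ℕ) (hM : 1 ≤ M) (α : ℕ) (hα : 1 ≤ α) (h : ℤ) (Q : ℕ → Prop) (hQ : ∀ A, CBM M h Q A) (A : ℕ) :
    EBM M 1 (fun n => 0 < (α : ℤ) * ((n : ℤ) - 1) + h ∧ Q ((α : ℤ) * ((n : ℤ) - 1) + h).toNat) A := by
  obtain ⟨X₁, h1⟩ := hQ (A + 1)
  obtain ⟨H, hH⟩ : ∃ H : ℕ, H = h.natAbs + 1 := ⟨_, rfl⟩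
  obtain ⟨X₂, h23, h2⟩ := ev_allM H A ((α * α ^ M) ^ M)
  refine ⟨max X₂ (X₁ + 1), fun X hX q hq1 hqX V hV => ?_⟩
  obtain ⟨a1, a2, a3⟩ := h2 X ((le_max_left _ _).trans hX)
  have hX1 : (X₁ : ℝ) + 1 ≤ X := (le_max_right _ _).trans hX
  have hX3 : 3 ≤ X := h23.trans ((le_max_left _ _).trans hX)
  have hX0 : 0 < X := by linarith
  have hα' : (1 : ℝ) ≤ α := by exact_mod_cast hα
  have hq' : (1 : ℝ) ≤ q := by exact_mod_cast hq1
  have hH' : (1 : ℝ) ≤ H := by rw [hH]; push_cast; linarith [Nat.cast_nonneg (α := ℝ) h.natAbs]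
  have hqs : (q : ℝ) ≤ X ^ (1 / 2 : ℝ) := by
    rw [← Real.sqrt_eq_rpow]
    exact Real.le_sqrt_of_sq_le ((pow_le_pow_right₀ hq' (by omega)).trans hqX)
  have hl1 : 1 ≤ Real.log X := by linarith
  have hl0 : 0 < Real.log X := by linarith
  -- the two parts
  obtain ⟨V1, hV1⟩ : ∃ V1, V1 = V.filter (fun v : ℕ => (α : ℤ) * ((q : ℤ) * v) + h ≤ 0) := ⟨_, rfl⟩
  obtain ⟨V2, hV2⟩ : ∃ V2, V2 = V.filter (fun v : ℕ => ¬ (α : ℤ) * ((q : ℤ) * v) + h ≤ 0) := ⟨_, rfl⟩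
  have hcard : V.card = V1.card + V2.card := by
    rw [hV1, hV2]
    exact (card_filter_add_card_filter_not (s := V) (fun v : ℕ => (α : ℤ) * ((q : ℤ) * v) + h ≤ 0)).symm
  have hV1c : V1.card ≤ H := by
    have hsub : V1 ⊆ range H := by
      intro v hv
      rw [hV1, mem_filter] at hv
      rw [mem_range, hH]
      have e1 : (v : ℤ) ≤ (α : ℤ) * ((q : ℤ) * v) := by
        have : (1 : ℤ) ≤ (α : ℤ) * q := by
          have := Nat.mul_le_mul hα hq1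
          have h3 : (1 : ℕ) * 1 ≤ α * q := this
          exact_mod_cast h3
        have h4 : (0 : ℤ) ≤ v := Int.natCast_nonneg v
        nlinarith
      omega
    calc V1.card ≤ (range H).card := card_le_card hsub
      _ = H := card_range H
  have hXn : (⌊X⌋₊ : ℝ) ≤ X := Nat.floor_le hX0.le
  obtain ⟨X', hX'⟩ : ∃ X' : ℕ, X' = α * ⌊X⌋₊ + H := ⟨_, rfl⟩
  have hfl : X - 1 < ⌊X⌋₊ := by
    have := Nat.lt_floor_add_one X
    linarith
  have hX'le : (X' : ℝ) ≤ α * X + H := by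
    rw [hX']
    push_cast
    have := mul_le_mul_of_nonneg_left hXn (by linarith : (0 : ℝ) ≤ α)
    linarith
  have hX'ge : X ≤ X' := by
    rw [hX']
    push_cast
    have h3 : X - 1 ≤ α * (⌊X⌋₊ : ℝ) := by
      have : (0 : ℝ) ≤ (⌊X⌋₊ : ℝ) := Nat.cast_nonneg _
      nlinarith
    linarith
  have hX'1 : X₁ ≤ X' := by
    have : (X₁ : ℝ) ≤ X' := by linarith
    exact_mod_cast this
  have hlX : Real.log X ≤ Real.log X' := Real.log_le_log hX0 hX'ge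
  have hαq : ((α * q : ℕ) : ℝ) ^ M ≤ (X' : ℝ) := by
    refine le_trans ?_ hX'ge
    rcases le_or_gt (α ^ M) q with g | g
    · have g' : (α : ℝ) ^ M ≤ q := by exact_mod_cast g
      calc ((α * q : ℕ) : ℝ) ^ M = (α : ℝ) ^ M * (q : ℝ) ^ M := by push_cast; rw [mul_pow]
        _ ≤ q * (q : ℝ) ^ M := mul_le_mul_of_nonneg_right g' (by positivity)
        _ = (q : ℝ) ^ (M + 1) := by ring
        _ ≤ X := hqX
    · have g' : (α * q) ^ M ≤ (α * α ^ M) ^ M := Nat.pow_le_pow_left (Nat.mul_le_mul_left _ g.le) M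
      refine le_trans ?_ a1
      exact_mod_cast g'
  have hinj : Set.InjOn (fun v : ℕ => ((α : ℤ) * ((q : ℤ) * v) + h).toNat) (V2 : Set ℕ) := by
    intro v hv w hw hvw
    rw [hV2, mem_coe, mem_filter] at hv hw
    simp only at hvw
    have e3 : (α : ℤ) * ((q : ℤ) * v) + h = (α : ℤ) * ((q : ℤ) * w) + h := by omega
    have e4 : (α : ℤ) * ((q : ℤ) * v) = (α : ℤ) * ((q : ℤ) * w) := by linarith
    have e5 := mul_left_cancel₀ (by exact_mod_cast (by omega : α ≠ 0) : (α : ℤ) ≠ 0) e4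
    have e6 : (v : ℤ) = w := mul_left_cancel₀ (by exact_mod_cast (by omega : q ≠ 0)) e5
    exact_mod_cast e6
  have hV2c : (V2.card : ℝ) ≤ X' / ((α * q : ℕ) * Real.log X' ^ (A + 1)) := by
    rw [← card_image_of_injOn hinj]
    refine h1 X' hX'1 (α * q) (Nat.mul_pos hα hq1) hαq _ ?_
    intro n hn
    rw [mem_image] at hn
    obtain ⟨v, hv, rfl⟩ := hn
    rw [hV2, mem_filter, not_le] at hv
    obtain ⟨e1, e2, e3⟩ := hV v hv.1
    have e4 : (α : ℤ) * ((((q : ℤ) * v + 1).toNat : ℤ) - 1) + h = (α : ℤ) * ((q : ℤ) * v) + h := by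
      rw [Int.toNat_of_nonneg e1.le]
      ring
    beta_reduce at e3
    rw [e4] at e3
    have e5 : ¬ Q ((α : ℤ) * ((q : ℤ) * v) + h).toNat := fun h3 => e3 ⟨hv.2, h3⟩
    have e6 : ((((α : ℤ) * ((q : ℤ) * v) + h).toNat : ℕ) : ℤ) = (α : ℤ) * ((q : ℤ) * v) + h :=
      Int.toNat_of_nonneg hv.2.le
    refine ⟨by omega, ?_, ?_, e5⟩
    · have e7 : (q : ℤ) * v ≤ ⌊X⌋₊ := by
        have e8 : ((q * v : ℕ) : ℝ) ≤ X := by
          push_cast at e2 ⊢
          linarith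
        have := Nat.le_floor e8
        exact_mod_cast this
      have e9 : (α : ℤ) * ((q : ℤ) * v) ≤ α * ⌊X⌋₊ := mul_le_mul_of_nonneg_left e7 (Int.natCast_nonneg _)
      have e10 : (X' : ℤ) = α * ⌊X⌋₊ + H := by rw [hX']; push_cast; rfl
      omega
    · rw [e6, Int.modEq_iff_dvd]
      exact ⟨-(v : ℤ), by push_cast; ring⟩
  have b1 : (H : ℝ) ≤ 1 / 2 * (X / (q * Real.log X ^ A)) := by
    rw [← mul_div_assoc, le_div_iff₀ (by positivity)]
    have g1 : X ^ (1 / 2 : ℝ) * X ^ (1 / 2 : ℝ) = X := by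
      rw [← Real.rpow_add hX0]
      norm_num
    calc (H : ℝ) * (q * Real.log X ^ A) = 1 / 2 * (q * (2 * (H : ℝ) * Real.log X ^ A)) := by ring
      _ ≤ 1 / 2 * (X ^ (1 / 2 : ℝ) * X ^ (1 / 2 : ℝ)) := by gcongr
      _ = 1 / 2 * X := by rw [g1]
  have b2 : (X' : ℝ) / ((α * q : ℕ) * Real.log X' ^ (A + 1)) ≤ 1 / 2 * (X / (q * Real.log X ^ A)) := by
    have g1 : (X' : ℝ) / ((α * q : ℕ) * Real.log X' ^ (A + 1)) ≤ (α * (X * (H + 1))) / (α * (q * Real.log X ^ (A + 1))) := by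
      apply div_le_div₀ (by positivity) _ (by positivity)
      · push_cast
        rw [mul_assoc]
        gcongr
      · refine hX'le.trans ?_
        have : (H : ℝ) ≤ α * (X * H) := by
          have h3 : (1 : ℝ) ≤ α * X := by nlinarith
          nlinarith
        nlinarith
    rw [mul_div_mul_left _ _ (by positivity : (α : ℝ) ≠ 0)] at g1
    refine g1.trans ?_
    rw [pow_succ, ← mul_div_assoc, div_le_div_iff₀ (by positivity) (by positivity)]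
    have g2 : (H : ℝ) + 1 ≤ 1 / 2 * Real.log X := by linarith
    have g3 : 0 ≤ X * (q * Real.log X ^ A) := by positivity
    calc X * ((H : ℝ) + 1) * (q * Real.log X ^ A) = X * (q * Real.log X ^ A) * (H + 1) := by ring
      _ ≤ X * (q * Real.log X ^ A) * (1 / 2 * Real.log X) := mul_le_mul_of_nonneg_left g2 g3
      _ = 1 / 2 * X * (q * (Real.log X ^ A * Real.log X)) := by ring
  have b3 : (V1.card : ℝ) ≤ H := by exact_mod_cast hV1c
  rw [hcard]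
  push_cast
  linarith

/-- large values: `n < 3` is rare in all classes -/
theorem cbm3 (h : ℤ) (A : ℕ) : CBM 2 h (fun n => 3 ≤ n) A := by
  obtain ⟨X₀, h3, h0⟩ := ev_allM 2 A 3
  refine ⟨⌈X₀⌉₊, fun X hX q hq hqX S hS => ?_⟩
  have hX' : X₀ ≤ X := (Nat.le_ceil _).trans (by exact_mod_cast hX)
  obtain ⟨a1, a2, a3⟩ := h0 X hX'
  have hX0 : (0 : ℝ) < X := by linarith
  have hq' : (1 : ℝ) ≤ q := by exact_mod_cast hq
  have hqs : (q : ℝ) ≤ (X : ℝ) ^ (1 / 2 : ℝ) := by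
    rw [← Real.sqrt_eq_rpow]
    exact Real.le_sqrt_of_sq_le hqX
  have hsub : S ⊆ Icc 1 2 := by
    intro n hn
    obtain ⟨g1, -, -, g2⟩ := hS n hn
    rw [mem_Icc]
    omega
  have hc : (S.card : ℝ) ≤ 2 := by
    have := card_le_card hsub
    rw [Nat.card_Icc] at this
    exact_mod_cast this
  have hl0 : 0 < Real.log X := by
    push_cast at a3
    linarith
  rw [le_div_iff₀ (by positivity)]
  have g1 : (X : ℝ) ^ (1 / 2 : ℝ) * (X : ℝ) ^ (1 / 2 : ℝ) = X := by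
    rw [← Real.rpow_add hX0]
    norm_num
  calc (S.card : ℝ) * (q * Real.log X ^ A) ≤ 2 * (q * Real.log X ^ A) := by gcongr
    _ = q * (2 * Real.log X ^ A) := by ring
    _ ≤ (X : ℝ) ^ (1 / 2 : ℝ) * (X : ℝ) ^ (1 / 2 : ℝ) := by
        apply mul_le_mul hqs _ (by positivity) (by positivity)
        refine le_trans ?_ a2
        push_cast
        have : 0 ≤ Real.log (X : ℝ) ^ A := by positivity
        linarith
    _ = X := g1

/-- iterates of `φ` and a property which is rarely violated in the classes of `h` -/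
theorem denskM {f : ℕ → ℕ} {c : ℤ} (hf : Shifted f c) (M : ℕ) (α : ℕ) (hα : 1 ≤ α) (h : ℤ) (Q : ℕ → Prop)
    (hQ : ∀ A, CBM M h Q A) (k : ℕ) :
    AlmostAll (fun m => 0 < (α : ℤ) * f (Nat.totient^[k] m) + h ∧
      Q ((α : ℤ) * f (Nat.totient^[k] m) + h).toNat) := by
  classical
  rw [almostAll_iff]
  intro δ hδ
  have hQ' : ∀ A, CBM (M + 1) h Q A := by
    intro A
    obtain ⟨X₀, h0⟩ := hQ A
    refine ⟨X₀, fun X hX q hq hqX S hS => h0 X hX q hq ?_ S hS⟩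
    have hq' : (1 : ℝ) ≤ q := by exact_mod_cast hq
    exact (pow_le_pow_right₀ hq' (by omega)).trans hqX
  obtain ⟨N₀, h0⟩ := densk (sm_of hf) 1 _ (M + 1) (ebm_of (M + 1) (by omega) α hα h Q hQ') k δ hδ
  refine ⟨N₀, fun N hN => le_trans (Nat.cast_le.2 (card_mono' ?_)) (h0 N hN)⟩
  intro m hm h1
  refine hm ?_
  obtain ⟨e1, e2, e3⟩ := h1
  rw [Int.toNat_of_nonneg e1.le] at e2 e3
  rw [add_sub_cancel_right] at e2 e3
  exact ⟨e2, e3⟩

/-- a property `R j` of the integers `n ≥ 3`, the stronger the larger `j`, which is rarely violated in the classes of all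
`h` modulo all `q ≤ X ^ (1 / M)`, for some `M` -/
def RareM (R : ℕ → ℕ → Prop) : Prop :=
  (∀ i j n : ℕ, i ≤ j → 3 ≤ n → R j n → R i n) ∧
  ∀ (j : ℕ) (h : ℤ), ∃ M : ℕ, ∀ A : ℕ, CBM M h (fun n => n < 3 ∨ R j n) A

theorem oneM (R : ℕ → ℕ → Prop) (hR : RareM R) {f : ℕ → ℕ} {c : ℤ} (hf : Shifted f c) (α : ℕ) (hα : 1 ≤ α) (h : ℤ)
    (j k : ℕ) :
    AlmostAll (fun m => 3 ≤ (α : ℤ) * f (Nat.totient^[k] m) + h ∧ R j ((α : ℤ) * f (Nat.totient^[k] m) + h).toNat) := by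
  obtain ⟨M, hM⟩ := hR.2 j h
  refine almostAll_mono (almostAll_and
    (denskM hf M α hα h (fun n => n < 3 ∨ R j n) hM k)
    (denskM hf 2 α hα h (fun n => 3 ≤ n) (fun A => cbm3 h A) k)) (fun m hm => ?_)
  obtain ⟨⟨h1, h2⟩, ⟨h3, h4⟩⟩ := hm
  refine ⟨by omega, ?_⟩
  rcases h2 with h5 | h5
  · omega
  · exact h5

/-- **All orbits.** -/
theorem orbitsM (R : ℕ → ℕ → Prop) (hR : RareM R) {f : ℕ → ℕ} {c : ℤ} (hf : Shifted f c) :
    ∃ κ : ℕ → ℕ, Tendsto κ atTop atTop ∧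
      AlmostAll (fun m => ∀ k α : ℕ, ∀ h : ℤ, k ≤ κ m → 1 ≤ α → α ≤ κ m → |h| ≤ κ m →
        3 ≤ (α : ℤ) * f (Nat.totient^[k] m) + h ∧ R (κ m) ((α : ℤ) * f (Nat.totient^[k] m) + h).toNat) := by
  refine diagonal (P := fun j m => ∀ k α : ℕ, ∀ h : ℤ, k ≤ j → 1 ≤ α → α ≤ j → |h| ≤ j →
      3 ≤ (α : ℤ) * f (Nat.totient^[k] m) + h ∧ R j ((α : ℤ) * f (Nat.totient^[k] m) + h).toNat) ?_ ?_
  · intro i j m hij hP k α h hk hα1 hα hh
    have hij' : (i : ℤ) ≤ j := by exact_mod_cast hij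
    obtain ⟨h1, h2⟩ := hP k α h (hk.trans hij) hα1 (hα.trans hij) (hh.trans hij')
    exact ⟨h1, hR.1 i j _ hij (by omega) h2⟩
  · intro j
    have h0 := almostAll_finset ((range (j + 1) ×ˢ range (j + 1)) ×ˢ Icc (-(j : ℤ)) j)
      (P := fun (x : (ℕ × ℕ) × ℤ) m => 1 ≤ x.1.2 →
        3 ≤ (x.1.2 : ℤ) * f (Nat.totient^[x.1.1] m) + x.2 ∧
        R j ((x.1.2 : ℤ) * f (Nat.totient^[x.1.1] m) + x.2).toNat) (by
      intro x _
      by_cases hx : 1 ≤ x.1.2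
      · exact almostAll_mono (oneM R hR hf x.1.2 hx x.2 j x.1.1) (fun m hm _ => hm)
      · exact almostAll_true (fun m g1 => absurd g1 hx))
    refine almostAll_mono h0 (fun m hm k α h hk hα1 hα hh => ?_)
    have h1 := hm ((k, α), h) (by
      rw [abs_le] at hh
      simp only [mem_product, mem_range, mem_Icc]
      omega)
    exact h1 hα1

/-- thin exceptional sets -/
def Thin (R : ℕ → ℕ → Prop) : Prop :=
  (∀ i j n : ℕ, i ≤ j → 3 ≤ n → R j n → R i n) ∧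
  ∀ j : ℕ, ∃ η : ℝ, 0 < η ∧ ∃ X₀ : ℕ, ∀ X : ℕ, X₀ ≤ X →
    (((Icc 1 X).filter (fun n => 3 ≤ n ∧ ¬ R j n)).card : ℝ) ≤ (X : ℝ) ^ (1 - η)

lemma ev_thin (η : ℝ) (hη : 0 < η) (A : ℕ) : ∃ X₀ : ℝ, 3 ≤ X₀ ∧ ∀ X : ℝ, X₀ ≤ X → Real.log X ^ A ≤ X ^ η := by
  have h2 := (isLittleO_log_rpow_rpow_atTop (s := η) (A : ℝ) hη).bound (c := 1) one_pos
  obtain ⟨X₀, hX₀⟩ := Filter.eventually_atTop.1 h2
  refine ⟨max X₀ 3, le_max_right _ _, fun X hX => ?_⟩
  have a2 := hX₀ X ((le_max_left _ _).trans hX)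
  have hX3 : (3 : ℝ) ≤ X := (le_max_right _ _).trans hX
  have hX0 : 0 < X := by linarith
  have hl : 0 ≤ Real.log X := Real.log_nonneg (by linarith)
  rw [Real.norm_of_nonneg (by positivity), Real.norm_of_nonneg (by positivity), Real.rpow_natCast] at a2
  linarith

theorem rareM_of_thin {R : ℕ → ℕ → Prop} (hR : Thin R) : RareM R := by
  refine ⟨hR.1, fun j h => ?_⟩
  obtain ⟨η, hη, X₁, h1⟩ := hR.2 j
  obtain ⟨M, hM⟩ := exists_nat_gt (2 / η)
  have hM0 : (0 : ℝ) < M := lt_trans (by positivity) hM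
  have hMη : 1 / (M : ℝ) ≤ η / 2 := by
    rw [div_le_iff₀ hM0]
    rw [div_lt_iff₀ hη] at hM
    linarith
  refine ⟨M, fun A => ?_⟩
  obtain ⟨X₂, h3, h2⟩ := ev_thin (η / 2) (by positivity) A
  refine ⟨max X₁ ⌈X₂⌉₊, fun X hX q hq hqX S hS => ?_⟩
  have hX2 : X₂ ≤ X := (Nat.le_ceil _).trans (by exact_mod_cast (le_max_right _ _).trans hX)
  have hX3 : (3 : ℝ) ≤ X := h3.trans hX2
  have hX0 : (0 : ℝ) < X := by linarith
  have hX1 : (1 : ℝ) ≤ X := by linarith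
  have hq0 : (0 : ℝ) < q := by exact_mod_cast hq
  have hl : 0 < Real.log (X : ℝ) := Real.log_pos (by linarith)
  have hsub : S ⊆ (Icc 1 X).filter (fun n => 3 ≤ n ∧ ¬ R j n) := by
    intro n hn
    obtain ⟨g1, g2, -, g3⟩ := hS n hn
    push Not at g3
    rw [mem_filter, mem_Icc]
    exact ⟨⟨g1, g2⟩, g3.1, g3.2⟩
  have hc : (S.card : ℝ) ≤ (X : ℝ) ^ (1 - η) :=
    le_trans (by exact_mod_cast card_le_card hsub) (h1 X ((le_max_left _ _).trans hX))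
  have hqM : (q : ℝ) ≤ (X : ℝ) ^ (η / 2) := by
    have e1 : (q : ℝ) = ((q : ℝ) ^ M) ^ (1 / (M : ℝ)) := by
      rw [← Real.rpow_natCast, ← Real.rpow_mul hq0.le, mul_one_div_cancel hM0.ne', Real.rpow_one]
    rw [e1]
    calc ((q : ℝ) ^ M) ^ (1 / (M : ℝ)) ≤ (X : ℝ) ^ (1 / (M : ℝ)) :=
          Real.rpow_le_rpow (by positivity) hqX (by positivity)
      _ ≤ (X : ℝ) ^ (η / 2) := Real.rpow_le_rpow_of_exponent_le hX1 hMη
  rw [le_div_iff₀ (by positivity)]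
  calc (S.card : ℝ) * (q * Real.log X ^ A) ≤ (X : ℝ) ^ (1 - η) * ((X : ℝ) ^ (η / 2) * (X : ℝ) ^ (η / 2)) := by
        apply mul_le_mul hc _ (by positivity) (by positivity)
        exact mul_le_mul hqM (h2 X hX2) (by positivity) (by positivity)
    _ = X := by
        rw [← Real.rpow_add hX0, ← Real.rpow_add hX0]
        have : 1 - η + (η / 2 + η / 2) = 1 := by ring
        rw [this, Real.rpow_one]

/-- **Thin exceptional sets, all orbits.** -/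
theorem orbits_thin (R : ℕ → ℕ → Prop) (hR : Thin R) {f : ℕ → ℕ} {c : ℤ} (hf : Shifted f c) :
    ∃ κ : ℕ → ℕ, Tendsto κ atTop atTop ∧
      AlmostAll (fun m => ∀ k α : ℕ, ∀ h : ℤ, k ≤ κ m → 1 ≤ α → α ≤ κ m → |h| ≤ κ m →
        3 ≤ (α : ℤ) * f (Nat.totient^[k] m) + h ∧ R (κ m) ((α : ℤ) * f (Nat.totient^[k] m) + h).toNat) :=
  orbitsM R (rareM_of_thin hR) hf

end Run7.h430.OT
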