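import Pool.Agent.Run7.h430.OT.D

set_option autoImplicit false

/-!
# Error terms with a mean square: classes modulo `q`

An error term `P(n)` with mean square `X ^ (3 / 2)` which does not decrease fast (counting function minus a smooth main
term) is at most `n ^ (1 / 4) (log n) ^ ψ(n)` for most members of every class modulo every `q ≤ X ^ (1 / 5)` (helper430).
-/

namespace Run7.h430.OT

open Finset Classical Filter Topology

/-- sum over disjoint windows -/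
lemma win (P : ℕ → ℝ) (W : ℝ) (hW : 0 ≤ W) (S : Finset ℕ) (q Z : ℕ) (g : ℕ → ℕ → ℕ)
    (h1 : ∀ n ∈ S, ∀ d < q, g n d ∈ Icc 1 Z ∧ W ≤ |P (g n d)|)
    (h2 : ∀ n ∈ S, ∀ n' ∈ S, ∀ d < q, ∀ d' < q, g n d = g n' d' → n = n' ∧ d = d') :
    (S.card : ℝ) * q * W ^ 2 ≤ ∑ n ∈ Icc 1 Z, P n ^ 2 := by
  have e1 : (S.card : ℝ) * q * W ^ 2 = ∑ x ∈ S ×ˢ range q, W ^ 2 := by
    rw [sum_const, card_product, card_range, nsmul_eq_mul]
    push_cast
    ring
  rw [e1]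
  calc ∑ x ∈ S ×ˢ range q, W ^ 2 ≤ ∑ x ∈ S ×ˢ range q, P (g x.1 x.2) ^ 2 := by
        apply sum_le_sum
        intro x hx
        rw [mem_product, mem_range] at hx
        have h3 := (h1 x.1 hx.1 x.2 hx.2).2
        rw [← sq_abs (P (g x.1 x.2))]
        exact pow_le_pow_left₀ hW h3 2
    _ = ∑ y ∈ (S ×ˢ range q).image (fun x => g x.1 x.2), P y ^ 2 := by
        rw [sum_image]
        intro x hx y hy hxy
        rw [mem_coe, mem_product, mem_range] at hx hy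
        obtain ⟨e2, e3⟩ := h2 x.1 hx.1 y.1 hy.1 x.2 hx.2 y.2 hy.2 hxy
        exact Prod.ext e2 e3
    _ ≤ ∑ n ∈ Icc 1 Z, P n ^ 2 := by
        apply sum_le_sum_of_subset_of_nonneg
        · intro y hy
          rw [mem_image] at hy
          obtain ⟨x, hx, rfl⟩ := hy
          rw [mem_product, mem_range] at hx
          exact (h1 x.1 hx.1 x.2 hx.2).1
        · intro _ _ _
          positivity

/-- `P` has mean square `X ^ (3 / 2)` and does not decrease fast -/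
def Err (P : ℕ → ℝ) : Prop :=
  (∃ C : ℝ, 0 < C ∧ ∀ X : ℕ, 1 ≤ X → ∑ n ∈ Icc 1 X, P n ^ 2 ≤ C * (X : ℝ) ^ (3 / 2 : ℝ)) ∧
  ∃ D : ℝ, 0 < D ∧ ∀ n d : ℕ, 1 ≤ n → P n - D * d * (1 + Real.log ((n : ℝ) + d)) ≤ P (n + d)

lemma ev_win (A : ℕ) (C D : ℝ) (hD : 0 < D) : ∃ X₀ : ℝ, 3 ≤ X₀ ∧ ∀ X : ℝ, X₀ ≤ X →
    (2 : ℝ) ^ (2 * (A + 2) + 1) ≤ Real.log X ∧
    Real.log X ^ (A + 2) ≤ X ^ (1 / 2 : ℝ) ∧ 4 * Real.log X ^ A * X ^ (1 / 5 : ℝ) ≤ X ∧
    4 * D * (2 + Real.log X) * X ^ (1 / 5 : ℝ) ≤ X ^ (1 / 4 : ℝ) ∧ X ^ (1 / 5 : ℝ) < X ^ (1 / 2 : ℝ) ∧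
    128 * C ≤ Real.log X := by
  have h1 := Real.tendsto_log_atTop.eventually_ge_atTop ((2 : ℝ) ^ (2 * (A + 2) + 1))
  have h2 := (isLittleO_log_rpow_rpow_atTop (s := (1 / 2 : ℝ)) ((A + 2 : ℕ) : ℝ) (by norm_num)).bound (c := 1) one_pos
  have h3 := (isLittleO_log_rpow_rpow_atTop (s := (4 / 5 : ℝ)) ((A : ℕ) : ℝ) (by norm_num)).bound
    (c := 1 / 4) (by norm_num)
  have h4 := (isLittleO_log_rpow_rpow_atTop (s := (1 / 20 : ℝ)) (1 : ℝ) (by norm_num)).bound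
    (c := 1 / (12 * D)) (by positivity)
  have h6 := Real.tendsto_log_atTop.eventually_ge_atTop (128 * C)
  obtain ⟨X₀, hX₀⟩ := Filter.eventually_atTop.1 (h1.and (h2.and (h3.and (h4.and h6))))
  refine ⟨max X₀ 3, le_max_right _ _, fun X hX => ?_⟩
  obtain ⟨a1, a2, a3, a4, a6⟩ := hX₀ X ((le_max_left _ _).trans hX)
  have hX3 : (3 : ℝ) ≤ X := (le_max_right _ _).trans hX
  have hX0 : 0 < X := by linarith
  have hl : 0 ≤ Real.log X := Real.log_nonneg (by linarith)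
  have hl1 : 1 ≤ Real.log X := by
    refine le_trans ?_ a1
    exact one_le_pow₀ (by norm_num)
  rw [Real.norm_of_nonneg (by positivity), Real.norm_of_nonneg (by positivity), Real.rpow_natCast] at a2 a3
  rw [Real.norm_of_nonneg (by positivity), Real.norm_of_nonneg (by positivity), Real.rpow_one] at a4
  refine ⟨a1, by linarith, ?_, ?_, ?_, a6⟩
  · have e1 : X ^ (4 / 5 : ℝ) * X ^ (1 / 5 : ℝ) = X := by
      rw [← Real.rpow_add hX0]
      norm_num
    have e2 : 0 ≤ X ^ (1 / 5 : ℝ) := by positivity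
    calc 4 * Real.log X ^ A * X ^ (1 / 5 : ℝ) ≤ 4 * (1 / 4 * X ^ (4 / 5 : ℝ)) * X ^ (1 / 5 : ℝ) := by gcongr
      _ = X ^ (4 / 5 : ℝ) * X ^ (1 / 5 : ℝ) := by ring
      _ = X := e1
  · have e1 : X ^ (1 / 20 : ℝ) * X ^ (1 / 5 : ℝ) = X ^ (1 / 4 : ℝ) := by
      rw [← Real.rpow_add hX0]
      norm_num
    calc 4 * D * (2 + Real.log X) * X ^ (1 / 5 : ℝ) ≤ 4 * D * (3 * Real.log X) * X ^ (1 / 5 : ℝ) := by
          gcongr
          linarith
      _ ≤ 4 * D * (3 * (1 / (12 * D) * X ^ (1 / 20 : ℝ))) * X ^ (1 / 5 : ℝ) := by gcongr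
      _ = X ^ (1 / 20 : ℝ) * X ^ (1 / 5 : ℝ) := by field_simp; ring
      _ = X ^ (1 / 4 : ℝ) := e1
  · apply Real.rpow_lt_rpow_of_exponent_lt (by linarith)
    norm_num

theorem cbm_of_err {P : ℕ → ℝ} (hP : Err P) (ψ : ℕ → ℝ) (hψ : Tendsto ψ atTop atTop) (h : ℤ) (A : ℕ) :
    CBM 5 h (fun n => n < 3 ∨ |P n| ≤ (n : ℝ) ^ (1 / 4 : ℝ) * Real.log n ^ ψ n) A := by
  obtain ⟨⟨C, hC0, hC⟩, D, hD0, hD⟩ := hP
  obtain ⟨B, hB⟩ : ∃ B : ℕ, B = 2 * (A + 2) + 1 := ⟨_, rfl⟩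
  obtain ⟨n₀, hn₀⟩ := Filter.eventually_atTop.1 (hψ.eventually_ge_atTop (B : ℝ))
  obtain ⟨X₀, h30, h0⟩ := ev_win A C D hD0
  refine ⟨max ⌈X₀⌉₊ (n₀ ^ 2 + 1), fun X hX q hq hqX S hS => ?_⟩
  have hXX₀ : X₀ ≤ X := (Nat.le_ceil _).trans (by exact_mod_cast (le_max_left _ _).trans hX)
  have hXn₀ : n₀ ^ 2 + 1 ≤ X := (le_max_right _ _).trans hX
  obtain ⟨a1, a2, a3, a4, a5, a6⟩ := h0 X hXX₀
  rw [← hB] at a1
  have hX3 : (3 : ℝ) ≤ X := h30.trans hXX₀
  have hX0 : (0 : ℝ) < X := by linarith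
  have hX1 : (1 : ℝ) ≤ X := by linarith
  have hl1 : 1 ≤ Real.log (X : ℝ) := le_trans (one_le_pow₀ (by norm_num)) a1
  have hl0 : 0 < Real.log (X : ℝ) := by linarith
  have hq0 : (0 : ℝ) < q := by exact_mod_cast hq
  have hqs : (q : ℝ) ≤ (X : ℝ) ^ (1 / 5 : ℝ) := by
    have e1 : (q : ℝ) = ((q : ℝ) ^ 5) ^ (1 / 5 : ℝ) := by
      rw [← Real.rpow_natCast, ← Real.rpow_mul hq0.le]
      norm_num
    rw [e1]
    exact Real.rpow_le_rpow (by positivity) hqX (by norm_num)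
  obtain ⟨L, hL⟩ : ∃ L : ℝ, L = Real.log (X : ℝ) ^ (A + 2) := ⟨_, rfl⟩
  have hL1 : 1 ≤ L := by
    rw [hL]
    exact one_le_pow₀ hl1
  have hL0 : 0 < L := by linarith
  obtain ⟨Y, hY⟩ : ∃ Y : ℝ, Y = X / L := ⟨_, rfl⟩
  have hXs : (X : ℝ) ^ (1 / 2 : ℝ) * (X : ℝ) ^ (1 / 2 : ℝ) = X := by
    rw [← Real.rpow_add hX0]
    norm_num
  have hYs : (X : ℝ) ^ (1 / 2 : ℝ) ≤ Y := by
    rw [hY, le_div_iff₀ hL0]
    rw [← hL] at a2
    calc (X : ℝ) ^ (1 / 2 : ℝ) * L ≤ (X : ℝ) ^ (1 / 2 : ℝ) * (X : ℝ) ^ (1 / 2 : ℝ) :=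
          mul_le_mul_of_nonneg_left a2 (by positivity)
      _ = X := hXs
  obtain ⟨V, hV⟩ : ∃ V : ℝ, V = (X : ℝ) ^ (1 / 4 : ℝ) * L := ⟨_, rfl⟩
  have hV0 : 0 < V := by
    rw [hV]
    positivity
  obtain ⟨S₀, hS₀⟩ : ∃ S₀, S₀ = S.filter (fun n : ℕ => (n : ℝ) ≤ Y) := ⟨_, rfl⟩
  obtain ⟨S₁, hS₁⟩ : ∃ S₁, S₁ = S.filter (fun n : ℕ => ¬ (n : ℝ) ≤ Y) := ⟨_, rfl⟩
  have hcard : S.card = S₀.card + S₁.card := by
    rw [hS₀, hS₁]
    exact (card_filter_add_card_filter_not (s := S) (fun n : ℕ => (n : ℝ) ≤ Y)).symm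
  -- few small members
  have hS₀c : (S₀.card : ℝ) ≤ Y / q + 1 := by
    have hinj : Set.InjOn (fun n : ℕ => n / q) (S₀ : Set ℕ) := by
      intro a ha b hb hab
      rw [mem_coe, hS₀, mem_filter] at ha hb
      obtain ⟨-, -, c1, -⟩ := hS a ha.1
      obtain ⟨-, -, c2, -⟩ := hS b hb.1
      have c3 : a ≡ b [MOD q] := by
        have := c1.trans c2.symm
        exact (Int.natCast_modEq_iff).1 this
      have c4 : a % q = b % q := c3
      simp only at hab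
      rw [← Nat.div_add_mod a q, ← Nat.div_add_mod b q, hab, c4]
    have hsub : S₀.image (fun n : ℕ => n / q) ⊆ range (⌊Y / q⌋₊ + 1) := by
      intro b hb
      rw [mem_image] at hb
      obtain ⟨n, hn, rfl⟩ := hb
      rw [hS₀, mem_filter] at hn
      rw [mem_range, Nat.lt_succ_iff]
      apply Nat.le_floor
      have c1 : ((n / q : ℕ) : ℝ) ≤ (n : ℝ) / q := Nat.cast_div_le
      refine c1.trans ?_
      exact div_le_div_of_nonneg_right hn.2 hq0.le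
    have c2 := card_le_card hsub
    rw [card_image_of_injOn hinj, card_range] at c2
    calc (S₀.card : ℝ) ≤ ((⌊Y / q⌋₊ + 1 : ℕ) : ℝ) := by exact_mod_cast c2
      _ = (⌊Y / q⌋₊ : ℝ) + 1 := by push_cast; rfl
      _ ≤ Y / q + 1 := by
          have : 0 ≤ Y / q := by
            rw [hY]
            positivity
          linarith [Nat.floor_le this]
  -- large members
  have hbig : ∀ n ∈ S₁, (q : ℝ) < n ∧ n ≤ X ∧ (n : ℤ) ≡ h [ZMOD q] ∧ V < |P n| := by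
    intro n hn
    rw [hS₁, mem_filter, not_le] at hn
    obtain ⟨hnS, hnY⟩ := hn
    obtain ⟨c1, c2, c3, c4⟩ := hS n hnS
    push Not at c4
    obtain ⟨c5, c6⟩ := c4
    have hn0 : (0 : ℝ) < n := by exact_mod_cast c1
    have hns : (X : ℝ) ^ (1 / 2 : ℝ) < n := lt_of_le_of_lt hYs hnY
    have hnn₀ : n₀ ≤ n := by
      by_contra hcon
      rw [not_le] at hcon
      have e1 : (n : ℝ) ^ 2 ≤ X := by
        have e2 : n ^ 2 ≤ n₀ ^ 2 := Nat.pow_le_pow_left hcon.le 2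
        have e3 : n ^ 2 ≤ X := by omega
        exact_mod_cast e3
      have e2 : (n : ℝ) ≤ (X : ℝ) ^ (1 / 2 : ℝ) := by
        rw [← Real.sqrt_eq_rpow]
        exact Real.le_sqrt_of_sq_le e1
      linarith
    have hψn := hn₀ n hnn₀
    refine ⟨?_, c2, c3, ?_⟩
    · calc (q : ℝ) ≤ (X : ℝ) ^ (1 / 5 : ℝ) := hqs
        _ < (X : ℝ) ^ (1 / 2 : ℝ) := a5
        _ < n := hns
    · refine lt_of_le_of_lt ?_ c6
      have hlog : Real.log (X : ℝ) / 2 ≤ Real.log n := by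
        have e1 : Real.log ((X : ℝ) ^ (1 / 2 : ℝ)) = Real.log X / 2 := by
          rw [Real.log_rpow hX0]
          ring
        rw [← e1]
        exact Real.log_le_log (by positivity) hns.le
      have hn3 : (3 : ℝ) ≤ n := by exact_mod_cast c5
      have hlogn1 : 1 ≤ Real.log (n : ℝ) := by
        have e1 : (2 : ℝ) ≤ Real.log X := by
          refine le_trans ?_ a1
          calc (2 : ℝ) = 2 ^ 1 := by norm_num
            _ ≤ 2 ^ B := pow_le_pow_right₀ (by norm_num) (by omega)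
        linarith
      have e2 : Real.log (n : ℝ) ^ (B : ℝ) ≤ Real.log (n : ℝ) ^ ψ n :=
        Real.rpow_le_rpow_of_exponent_le hlogn1 hψn
      rw [Real.rpow_natCast] at e2
      have e3 : (Real.log (X : ℝ) / 2) ^ B ≤ Real.log (n : ℝ) ^ B := pow_le_pow_left₀ (by linarith) hlog B
      have e4 : L ^ 2 ≤ (Real.log (X : ℝ) / 2) ^ B := by
        rw [hB, div_pow, le_div_iff₀ (by positivity), pow_succ (Real.log (X : ℝ)), hL, ← pow_mul]
        have e5 : (A + 2) * 2 = 2 * (A + 2) := by ring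
        rw [e5]
        rw [hB] at a1
        exact mul_le_mul_of_nonneg_left a1 (by positivity)
      have e5 : (X : ℝ) ^ (1 / 4 : ℝ) ≤ (n : ℝ) ^ (1 / 4 : ℝ) * L := by
        have e6 : (X : ℝ) ≤ n * L := by
          rw [hY, div_lt_iff₀ hL0] at hnY
          exact hnY.le
        calc (X : ℝ) ^ (1 / 4 : ℝ) ≤ (n * L) ^ (1 / 4 : ℝ) := Real.rpow_le_rpow hX0.le e6 (by norm_num)
          _ = (n : ℝ) ^ (1 / 4 : ℝ) * L ^ (1 / 4 : ℝ) := Real.mul_rpow hn0.le hL0.le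
          _ ≤ (n : ℝ) ^ (1 / 4 : ℝ) * L ^ (1 : ℝ) := by
              apply mul_le_mul_of_nonneg_left _ (by positivity)
              exact Real.rpow_le_rpow_of_exponent_le hL1 (by norm_num)
          _ = (n : ℝ) ^ (1 / 4 : ℝ) * L := by rw [Real.rpow_one]
      calc V = (X : ℝ) ^ (1 / 4 : ℝ) * L := hV
        _ ≤ ((n : ℝ) ^ (1 / 4 : ℝ) * L) * L := mul_le_mul_of_nonneg_right e5 hL0.le
        _ = (n : ℝ) ^ (1 / 4 : ℝ) * L ^ 2 := by ring
        _ ≤ (n : ℝ) ^ (1 / 4 : ℝ) * Real.log (n : ℝ) ^ ψ n := by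
            apply mul_le_mul_of_nonneg_left _ (by positivity)
            linarith
  have hslack : D * q * (1 + Real.log (2 * X)) ≤ V / 2 := by
    have e1 : Real.log (2 * (X : ℝ)) = Real.log 2 + Real.log X := Real.log_mul (by norm_num) hX0.ne'
    have e2 := Real.log_two_lt_d9
    have e3 : (X : ℝ) ^ (1 / 4 : ℝ) ≤ V := by
      rw [hV]
      exact le_mul_of_one_le_right (by positivity) hL1
    have e4 : 1 + Real.log (2 * (X : ℝ)) ≤ 2 + Real.log X := by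
      rw [e1]
      linarith
    have e5 : 0 ≤ 1 + Real.log (2 * (X : ℝ)) := by
      have := Real.log_nonneg (by linarith : (1 : ℝ) ≤ 2 * X)
      linarith
    calc D * q * (1 + Real.log (2 * X)) ≤ D * (X : ℝ) ^ (1 / 5 : ℝ) * (2 + Real.log X) := by gcongr
      _ = 1 / 4 * (4 * D * (2 + Real.log X) * (X : ℝ) ^ (1 / 5 : ℝ)) := by ring
      _ ≤ 1 / 4 * (X : ℝ) ^ (1 / 4 : ℝ) := by gcongr
      _ ≤ V / 2 := by linarith
  have hstep : ∀ n d : ℕ, 1 ≤ n → d < q → n + d ≤ 2 * X → P n - V / 2 ≤ P (n + d) := by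
    intro n d hn hd hnd
    have e1 := hD n d hn
    have e2 : Real.log ((n : ℝ) + d) ≤ Real.log (2 * X) := by
      apply Real.log_le_log
      · have : (1 : ℝ) ≤ n := by exact_mod_cast hn
        positivity
      · exact_mod_cast hnd
    have e3 : (d : ℝ) ≤ q := by exact_mod_cast hd.le
    have e4 : D * d * (1 + Real.log ((n : ℝ) + d)) ≤ D * q * (1 + Real.log (2 * X)) := by
      have e5 : 0 ≤ 1 + Real.log ((n : ℝ) + d) := by
        have e6 : (1 : ℝ) ≤ (n : ℝ) + d := by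
          have : (1 : ℝ) ≤ n := by exact_mod_cast hn
          have : (0 : ℝ) ≤ d := Nat.cast_nonneg d
          linarith
        have := Real.log_nonneg e6
        linarith
      gcongr
    linarith
  obtain ⟨Sp, hSp⟩ : ∃ Sp, Sp = S₁.filter (fun n : ℕ => V < P n) := ⟨_, rfl⟩
  obtain ⟨Sn, hSn⟩ : ∃ Sn, Sn = S₁.filter (fun n : ℕ => P n < -V) := ⟨_, rfl⟩
  have hS₁c : S₁.card ≤ Sp.card + Sn.card := by
    have e1 : S₁ ⊆ Sp ∪ Sn := by
      intro n hn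
      rw [mem_union, hSp, hSn, mem_filter, mem_filter]
      have e2 := (hbig n hn).2.2.2
      rcases lt_abs.1 e2 with e3 | e3
      · left; exact ⟨hn, e3⟩
      · right; exact ⟨hn, by linarith⟩
    exact (card_le_card e1).trans (card_union_le _ _)
  have hqX' : (q : ℝ) < X := by
    calc (q : ℝ) ≤ (X : ℝ) ^ (1 / 5 : ℝ) := hqs
      _ < (X : ℝ) ^ (1 / 2 : ℝ) := a5
      _ ≤ (X : ℝ) ^ (1 : ℝ) := Real.rpow_le_rpow_of_exponent_le hX1 (by norm_num)
      _ = X := Real.rpow_one _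
  have hqXn : q < X := by exact_mod_cast hqX'
  have hmod : ∀ n ∈ S₁, ∀ n' ∈ S₁, ∃ t : ℤ, (n : ℤ) - n' = q * t := by
    intro n hn n' hn'
    have e1 := (hbig n hn).2.2.1.trans (hbig n' hn').2.2.1.symm
    have e2 := Int.ModEq.dvd e1
    obtain ⟨t, ht⟩ := e2
    exact ⟨-t, by linarith [ht, mul_neg (q : ℤ) t]⟩
  have hmul0 : ∀ t : ℤ, ∀ x : ℤ, |x| < q → (q : ℤ) * t = x → x = 0 := by
    intro t x hx htx
    by_contra hne
    have ht0 : t ≠ 0 := by
      rintro rfl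
      rw [mul_zero] at htx
      exact hne htx.symm
    have e1 : (q : ℤ) ≤ |(q : ℤ) * t| := by
      rw [abs_mul, abs_of_nonneg (Int.natCast_nonneg q)]
      exact le_mul_of_one_le_right (Int.natCast_nonneg q) (Int.one_le_abs ht0)
    rw [htx] at e1
    omega
  have hms := hC (2 * X) (by
    have : 1 ≤ X := by exact_mod_cast hX1
    omega)
  have hp : (Sp.card : ℝ) * q * (V / 2) ^ 2 ≤ C * ((2 * X : ℕ) : ℝ) ^ (3 / 2 : ℝ) := by
    refine (win P (V / 2) (by positivity) Sp q (2 * X) (fun n d => n + d) ?_ ?_).trans hms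
    · intro n hn d hd
      rw [hSp, mem_filter] at hn
      obtain ⟨e1, e2, -, -⟩ := hbig n hn.1
      have e3 : 1 ≤ n := by
        have : (q : ℝ) < n := e1
        have : q < n := by exact_mod_cast this
        omega
      have e4 : n + d ≤ 2 * X := by omega
      refine ⟨by rw [mem_Icc]; omega, ?_⟩
      have e5 := hstep n d e3 hd e4
      exact le_trans (by linarith [hn.2]) (le_abs_self _)
    · intro n hn n' hn' d hd d' hd' heq
      rw [hSp, mem_filter] at hn hn'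
      obtain ⟨t, ht⟩ := hmod n hn.1 n' hn'.1
      have e1 : (q : ℤ) * t = (d' : ℤ) - d := by omega
      have e2 := hmul0 t _ (by rw [abs_lt]; omega) e1
      omega
  have hnn : (Sn.card : ℝ) * q * (V / 2) ^ 2 ≤ C * ((2 * X : ℕ) : ℝ) ^ (3 / 2 : ℝ) := by
    refine (win P (V / 2) (by positivity) Sn q (2 * X) (fun n d => n - d) ?_ ?_).trans hms
    · intro n hn d hd
      rw [hSn, mem_filter] at hn
      obtain ⟨e1, e2, -, -⟩ := hbig n hn.1
      have e3 : q < n := by exact_mod_cast e1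
      refine ⟨by rw [mem_Icc]; omega, ?_⟩
      have e5 := hstep (n - d) d (by omega) hd (by omega)
      have e6 : n - d + d = n := by omega
      rw [e6] at e5
      refine le_trans ?_ (neg_le_abs _)
      linarith [hn.2]
    · intro n hn n' hn' d hd d' hd' heq
      rw [hSn, mem_filter] at hn hn'
      obtain ⟨t, ht⟩ := hmod n hn.1 n' hn'.1
      have e3 : q < n := by exact_mod_cast (hbig n hn.1).1
      have e4 : q < n' := by exact_mod_cast (hbig n' hn'.1).1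
      have e1 : (q : ℤ) * t = (d : ℤ) - d' := by omega
      have e2 := hmul0 t _ (by rw [abs_lt]; omega) e1
      omega
  -- conclusion
  have hV2 : V ^ 2 = (X : ℝ) ^ (1 / 2 : ℝ) * L ^ 2 := by
    rw [hV, mul_pow]
    congr 1
    rw [← Real.rpow_natCast, ← Real.rpow_mul hX0.le]
    norm_num
  have h32 : (((2 * X : ℕ) : ℝ)) ^ (3 / 2 : ℝ) ≤ 4 * ((X : ℝ) * (X : ℝ) ^ (1 / 2 : ℝ)) := by
    push_cast
    rw [Real.mul_rpow (by norm_num) hX0.le]
    have e1 : (X : ℝ) ^ (3 / 2 : ℝ) = (X : ℝ) * (X : ℝ) ^ (1 / 2 : ℝ) := by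
      rw [← Real.rpow_one_add' hX0.le (by norm_num)]
      norm_num
    have e2 : (2 : ℝ) ^ (3 / 2 : ℝ) ≤ 4 := by
      calc (2 : ℝ) ^ (3 / 2 : ℝ) ≤ (2 : ℝ) ^ (2 : ℝ) := Real.rpow_le_rpow_of_exponent_le (by norm_num) (by norm_num)
        _ = 4 := by norm_num
    rw [e1]
    exact mul_le_mul_of_nonneg_right e2 (by positivity)
  have key : ∀ c : ℝ, c * q * (V / 2) ^ 2 ≤ C * ((2 * X : ℕ) : ℝ) ^ (3 / 2 : ℝ) → c ≤ 16 * C * X / (q * L ^ 2) := by
    intro c hc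
    rw [le_div_iff₀ (by positivity)]
    have e1 : c * q * (V / 2) ^ 2 = (c * (q * L ^ 2)) * ((X : ℝ) ^ (1 / 2 : ℝ) / 4) := by
      rw [div_pow, hV2]
      ring
    have e2 : C * ((2 * X : ℕ) : ℝ) ^ (3 / 2 : ℝ) ≤ (16 * C * X) * ((X : ℝ) ^ (1 / 2 : ℝ) / 4) := by
      calc C * ((2 * X : ℕ) : ℝ) ^ (3 / 2 : ℝ) ≤ C * (4 * ((X : ℝ) * (X : ℝ) ^ (1 / 2 : ℝ))) :=
            mul_le_mul_of_nonneg_left h32 hC0.le
        _ = (16 * C * X) * ((X : ℝ) ^ (1 / 2 : ℝ) / 4) := by ring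
    rw [e1] at hc
    exact le_of_mul_le_mul_right (hc.trans e2) (by positivity)
  have k1 := key _ hp
  have k2 := key _ hnn
  have k3 : (S₁.card : ℝ) ≤ Sp.card + Sn.card := by exact_mod_cast hS₁c
  have k4 : 16 * C * X / (q * L ^ 2) ≤ 1 / 8 * (X / (q * Real.log (X : ℝ) ^ A)) := by
    rw [← mul_div_assoc, div_le_div_iff₀ (by positivity) (by positivity)]
    have e1 : 128 * C * Real.log (X : ℝ) ^ A ≤ L ^ 2 := by
      have e2 : Real.log (X : ℝ) * Real.log (X : ℝ) ^ A ≤ L := by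
        rw [hL, pow_add]
        have e3 : Real.log (X : ℝ) ≤ Real.log (X : ℝ) ^ 2 := by nlinarith
        calc Real.log (X : ℝ) * Real.log (X : ℝ) ^ A ≤ Real.log (X : ℝ) ^ 2 * Real.log (X : ℝ) ^ A := by gcongr
          _ = Real.log (X : ℝ) ^ A * Real.log (X : ℝ) ^ 2 := by ring
      calc 128 * C * Real.log (X : ℝ) ^ A ≤ Real.log X * Real.log (X : ℝ) ^ A := by gcongr
        _ ≤ L := e2
        _ ≤ L ^ 2 := by nlinarith
    calc 16 * C * X * (q * Real.log (X : ℝ) ^ A) = (X * q) / 8 * (128 * C * Real.log (X : ℝ) ^ A) := by ring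
      _ ≤ (X * q) / 8 * L ^ 2 := by gcongr
      _ = 1 / 8 * X * (q * L ^ 2) := by ring
  have k5 : Y / q ≤ 1 / 4 * (X / (q * Real.log (X : ℝ) ^ A)) := by
    rw [hY, ← mul_div_assoc, div_div, div_le_div_iff₀ (by positivity) (by positivity)]
    have e1 : 4 * Real.log (X : ℝ) ^ A ≤ L := by
      rw [hL, pow_add]
      have e2 : (4 : ℝ) ≤ Real.log (X : ℝ) ^ 2 := by
        have e3 : (2 : ℝ) ≤ Real.log X := by
          refine le_trans ?_ a1
          calc (2 : ℝ) = 2 ^ 1 := by norm_num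
            _ ≤ 2 ^ B := pow_le_pow_right₀ (by norm_num) (by omega)
        nlinarith
      rw [mul_comm]
      exact mul_le_mul_of_nonneg_left e2 (by positivity)
    calc (X : ℝ) * (q * Real.log (X : ℝ) ^ A) = (X * q) / 4 * (4 * Real.log (X : ℝ) ^ A) := by ring
      _ ≤ (X * q) / 4 * L := by gcongr
      _ = 1 / 4 * X * (L * q) := by ring
  have k6 : (1 : ℝ) ≤ 1 / 4 * (X / (q * Real.log (X : ℝ) ^ A)) := by
    rw [← mul_div_assoc, le_div_iff₀ (by positivity)]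
    have e1 : 4 * Real.log (X : ℝ) ^ A * q ≤ X := by
      refine le_trans ?_ a3
      gcongr
    linarith
  rw [hcard]
  push_cast
  have k7 : 0 < X / (q * Real.log (X : ℝ) ^ A) := by positivity
  linarith

end Run7.h430.OT
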